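import Pool.Agent.Helper45.RK.GoalsG
import Pool.Agent.Helper10.SP.WIRT
import Pool.Agent.Helper68.Lin.CAU

/-! # Packet RK HFA2: the linear part is near 1 if it is near 1 at one point -/

set_option autoImplicit false

open Complex Metric Set Filter Topology
open scoped ContDiff ComplexConjugate Matrix ComplexOrder

namespace Pool.Agent.Helper25.RK

open Pool.Agent.Helper95.Lin Pool.Agent.Helper10.SP Pool.Agent.Helper95.RK Pool.Agent.Helper45.SP
  Pool.Agent.Helper45.RK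

lemma det_smooth {b m : ℕ} {W : Set (Cn b)} (M : Cn b → Matrix (Fin m) (Fin m) ℂ)
    (h : ∀ i j, ContDiffOn ℝ ∞ (fun z => M z i j) W) :
    ContDiffOn ℝ ∞ (fun z => (M z).det) W := by
  simp only [Matrix.det_apply']
  exact ContDiffOn.sum fun σ _ => contDiffOn_const.mul (contDiffOn_prod fun i _ => h _ _)

lemma inv_smooth {b m : ℕ} {W : Set (Cn b)} (M : Cn b → Matrix (Fin m) (Fin m) ℂ)
    (h : ∀ i j, ContDiffOn ℝ ∞ (fun z => M z i j) W) (hd : ∀ z ∈ W, (M z).det ≠ 0) (i j : Fin m) :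
    ContDiffOn ℝ ∞ (fun z => (M z)⁻¹ i j) W := by
  have h1 : (fun z => (M z)⁻¹ i j) = fun z => ((M z).det)⁻¹ * (M z).adjugate i j := by
    funext z
    rw [Matrix.inv_def, Matrix.smul_apply, Ring.inverse_eq_inv', smul_eq_mul]
  rw [h1]
  refine ((det_smooth M h).inv hd).mul ?_
  simp only [Matrix.adjugate_apply]
  refine det_smooth _ fun p q => ?_
  simp only [Matrix.updateRow_apply]
  split_ifs
  · exact contDiffOn_const
  · exact h p q

lemma GHf_smooth {b k : ℕ} {W : Set (Cn b)} (hW : IsOpen W) (Hf : Cn b → Matrix (Fin k) (Fin k) ℂ)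
    (h : ∀ i j, ContDiffOn ℝ ∞ (fun z => Hf z i j) W) (hd : ∀ z ∈ W, (Hf z).det ≠ 0) (a : Fin b)
    (i j : Fin k) : ContDiffOn ℝ ∞ (fun z => GHf Hf a z i j) W := by
  simp only [GHf, Matrix.mul_apply, Matrix.of_apply]
  exact ContDiffOn.sum fun l _ => (Pool.Agent.Helper10.SP.Wirt.cd_smooth hW (h i l) a).mul (inv_smooth Hf h hd l j)

lemma mul_entry_le {k : ℕ} {X Y : Matrix (Fin k) (Fin k) ℂ} {p q : ℝ} (hp : 0 ≤ p)
    (hX : ∀ i j, ‖X i j‖ ≤ p) (hY : ∀ i j, ‖Y i j‖ ≤ q) (i j : Fin k) :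
    ‖(X * Y) i j‖ ≤ k * (p * q) := by
  rw [Matrix.mul_apply]
  calc ‖∑ l, X i l * Y l j‖ ≤ ∑ l, ‖X i l * Y l j‖ := norm_sum_le _ _
    _ ≤ ∑ _l : Fin k, p * q := by
        refine Finset.sum_le_sum fun l _ => ?_
        rw [norm_mul]
        exact mul_le_mul (hX i l) (hY l j) (norm_nonneg _) hp
    _ = k * (p * q) := by rw [Finset.sum_const, Finset.card_univ, Fintype.card_fin, nsmul_eq_mul]

lemma cd_holo {b : ℕ} {f : Cn b → ℂ} {x : Cn b} (hf : DifferentiableAt ℂ f x) (a : Fin b) :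
    cd a f x = 2 * fderiv ℂ f x (Pi.single a 1) := by
  have h1 : fderiv ℝ f x = (fderiv ℂ f x).restrictScalars ℝ := hf.fderiv_restrictScalars ℝ
  have h2 : (Pi.single a I : Cn b) = I • Pi.single a 1 := by
    rw [← Pi.single_smul']; simp
  unfold cd
  rw [h1]
  simp only [ContinuousLinearMap.coe_restrictScalars']
  rw [h2, map_smul, smul_eq_mul, ← mul_assoc, I_mul_I]
  ring

lemma fderiv_sum {b : ℕ} (T : Cn b →L[ℂ] ℂ) (v : Cn b) : T v = ∑ a, v a * T (Pi.single a 1) := by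
  conv_lhs => rw [← Finset.univ_sum_single v]
  rw [map_sum]
  refine Finset.sum_congr rfl fun a _ => ?_
  have h2 : (Pi.single a (v a) : Cn b) = v a • Pi.single a 1 := by
    rw [← Pi.single_smul']; simp
  rw [h2, map_smul, smul_eq_mul]

/-- Packet HFA2. -/
theorem hfa2 (h1 : S_HFA1) : S_HFA2 := by
  intro b k z₀ W hW hBW Hf hHf hpos C₀
  have hdet : ∀ z ∈ W, (Hf z).det ≠ 0 := fun z hz => (hpos z hz).det_pos.ne'
  set G : Cn b → (Fin b → Fin k → Fin k → ℂ) := fun z a i j => GHf Hf a z i j with hGd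
  have hG : ContDiffOn ℝ ∞ G W := by
    refine contDiffOn_pi.2 fun a => contDiffOn_pi.2 fun i => contDiffOn_pi.2 fun j => ?_
    exact GHf_smooth hW Hf hHf hdet a i j
  have hcpt : IsCompact (closedBall z₀ (2 : ℝ)) := isCompact_closedBall _ _
  have hself : z₀ ∈ closedBall z₀ (2 : ℝ) := mem_closedBall_self (by norm_num)
  obtain ⟨M, hM⟩ := hcpt.exists_bound_of_continuousOn (hG.continuousOn.mono hBW)
  obtain ⟨L, hL⟩ := hcpt.exists_bound_of_continuousOn
    (((hG.fderiv_of_isOpen hW (m := ∞) (by simp)).continuousOn).mono hBW)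
  have hM0 : 0 ≤ M := (norm_nonneg _).trans (hM z₀ hself)
  have hL0 : 0 ≤ L := (norm_nonneg _).trans (hL z₀ hself)
  have hLip : ∀ x ∈ closedBall z₀ (2 : ℝ), ∀ y ∈ closedBall z₀ (2 : ℝ),
      ‖G y - G x‖ ≤ L * ‖y - x‖ := fun x hx y hy =>
    (convex_closedBall z₀ 2).norm_image_sub_le_of_norm_fderiv_le
      (fun u hu => (hG.contDiffAt (hW.mem_nhds (hBW hu))).differentiableAt (by simp)) hL hx hy
  have hGe : ∀ x a i j, ‖GHf Hf a x i j‖ ≤ ‖G x‖ := fun x a i j =>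
    ((norm_le_pi_norm (G x a i) j).trans (norm_le_pi_norm (G x a) i)).trans
      (norm_le_pi_norm (G x) a)
  have hGe2 : ∀ x y a i j, ‖GHf Hf a x i j - GHf Hf a y i j‖ ≤ ‖G x - G y‖ := fun x y a i j =>
    ((norm_le_pi_norm ((G x - G y) a i) j).trans (norm_le_pi_norm ((G x - G y) a) i)).trans
      (norm_le_pi_norm (G x - G y) a)
  obtain ⟨K', hK'U, hK'c, hKi, C₁, hC₁, hcau⟩ := Pool.Agent.Helper68.Lin.CAU (n := b) (m := b)
    (ball z₀ 2) isOpen_ball
    (closedBall z₀ (3 / 2)) (closedBall_subset_ball (by norm_num)) (isCompact_closedBall _ _)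
  set C₂ : ℝ := b * (C₁ * M) + L with hC₂d
  have hC₂ : 0 ≤ C₂ := by positivity
  set C₃ : ℝ := 1 + b * (2 / 3) * (2 * k * M + k * |C₀| * C₂) with hC₃d
  have hC₃ : 1 ≤ C₃ := by
    have : 0 ≤ b * (2 / 3) * (2 * k * M + k * |C₀| * C₂) := by positivity
    linarith
  refine ⟨1 / 2, by norm_num, k * Real.exp C₃, by positivity, ?_⟩
  intro g A hg hA hdA hgW hherm s hs hnear ε hε hMB z hz
  have hs0 : 0 ≤ s := (norm_nonneg _).trans (hnear z₀ (mem_ball_self (by norm_num)))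
  -- the Cauchy estimate
  have hf : DifferentiableOn ℂ (fun y => g y - y) (ball z₀ 2) := hg.sub differentiableOn_id
  obtain ⟨hc1, -⟩ := hcau (fun y => g y - y) hf s (fun y hy => hnear y (hK'U hy))
  have hb2 : ∀ x ∈ ball z₀ (3 / 2 : ℝ), x ∈ ball z₀ (2 : ℝ) := fun x hx =>
    ball_subset_ball (by norm_num) hx
  have hgd : ∀ x ∈ ball z₀ (3 / 2 : ℝ), DifferentiableAt ℂ g x := fun x hx =>
    hg.differentiableAt (isOpen_ball.mem_nhds (hb2 x hx))
  have hAd : ∀ i j, ∀ x ∈ ball z₀ (3 / 2 : ℝ), DifferentiableAt ℂ (fun y => A y i j) x :=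
    fun i j x hx => (hA i j).differentiableAt (isOpen_ball.mem_nhds (hb2 x hx))
  have hfd : ∀ x ∈ ball z₀ (3 / 2 : ℝ), ∀ a c,
      ‖fderiv ℂ g x (Pi.single a 1) c - (Pi.single a 1 : Cn b) c‖ ≤ C₁ * s := by
    intro x hx a c
    have h2 : fderiv ℂ (fun y => g y - y) x = fderiv ℂ g x - ContinuousLinearMap.id ℂ _ := by
      rw [fderiv_fun_sub (hgd x hx) differentiableAt_fun_id, fderiv_id']
    have h3 := hc1 x (ball_subset_closedBall hx)
    rw [h2] at h3
    have h4 := (fderiv ℂ g x - ContinuousLinearMap.id ℂ (Cn b)).le_of_opNorm_le h3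
      (Pi.single a 1)
    rw [Pi.norm_single, norm_one, mul_one] at h4
    refine le_trans ?_ h4
    exact norm_le_pi_norm ((fderiv ℂ g x - ContinuousLinearMap.id ℂ (Cn b)) (Pi.single a 1)) c
  set D : Cn b → (Fin k → Fin k → ℂ) := fun x i j => (A x - 1) i j with hDd
  have hDe : ∀ x i j, ‖(A x - 1) i j‖ ≤ ‖D x‖ := fun x i j =>
    (norm_le_pi_norm (D x i) j).trans (norm_le_pi_norm (D x) i)
  have hcd : ∀ x ∈ ball z₀ (3 / 2 : ℝ), ∀ a i j,
      ‖cd a (fun y => A y i j) x‖ ≤ 2 * k * M * ‖D x‖ + k * |C₀| * (C₂ * s) := by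
    intro x hx a i j
    have hx2 := hb2 x hx
    have hxc : x ∈ closedBall z₀ (2 : ℝ) := ball_subset_closedBall hx2
    have hgx : g x ∈ closedBall z₀ (2 : ℝ) := by
      rw [mem_closedBall, dist_eq_norm]
      have h2 := hnear x hx2
      have h3 : ‖x - z₀‖ < 3 / 2 := by rwa [mem_ball, dist_eq_norm] at hx
      calc ‖g x - z₀‖ = ‖(g x - x) + (x - z₀)‖ := by rw [sub_add_sub_cancel]
        _ ≤ ‖g x - x‖ + ‖x - z₀‖ := norm_add_le _ _
        _ ≤ 2 := by linarith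
    have h2 := h1 W hW Hf hHf hpos (ball z₀ 2) g A isOpen_ball (ball_subset_closedBall.trans hBW)
      hg hgW hA (fun z hz => (hdA z hz).1) hherm x hx2 a
    set X := GHf Hf a x with hX
    set Y := ∑ c, (fderiv ℂ g x (Pi.single a 1)) c • GHf Hf c (g x) with hY
    obtain ⟨B, hB⟩ : ∃ B : Matrix (Fin k) (Fin k) ℂ, B = (A x - 1)ᵀ := ⟨_, rfl⟩
    have h3 : X * (A x)ᵀ - (A x)ᵀ * Y = X * B - B * X - (A x)ᵀ * (Y - X) := by
      rw [hB, Matrix.transpose_sub, Matrix.transpose_one, mul_sub, sub_mul, mul_sub]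
      simp only [mul_one, one_mul]
      abel
    have h4 : cd a (fun y => A y i j) x = (X * B) j i - (B * X) j i -
        ((A x)ᵀ * (Y - X)) j i := by
      have h5 := congrFun (congrFun h2 j) i
      rw [h3] at h5
      exact h5
    have hXe : ∀ p q, ‖X p q‖ ≤ M := fun p q => (hGe x a p q).trans (hM x hxc)
    have hDt : ∀ p q, ‖B p q‖ ≤ ‖D x‖ := fun p q => by rw [hB]; exact hDe x q p
    have hAt : ∀ p q, ‖(A x)ᵀ p q‖ ≤ |C₀| := fun p q =>
      ((hdA x hx2).2.entry q p).trans (le_abs_self _)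
    have hYX : ∀ p q, ‖(Y - X) p q‖ ≤ C₂ * s := by
      intro p q
      have h6 : (Y - X) p q = ∑ c, (fderiv ℂ g x (Pi.single a 1) c - (Pi.single a 1 : Cn b) c) *
          GHf Hf c (g x) p q + (GHf Hf a (g x) p q - GHf Hf a x p q) := by
        have h7 : ∑ c, (Pi.single a 1 : Cn b) c * GHf Hf c (g x) p q = GHf Hf a (g x) p q := by
          rw [Finset.sum_eq_single a]
          · simp
          · intro c _ hc
            rw [Pi.single_eq_of_ne hc, zero_mul]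
          · intro h; exact absurd (Finset.mem_univ a) h
        simp only [sub_mul, Finset.sum_sub_distrib]
        rw [h7, Matrix.sub_apply, hY, Matrix.sum_apply]
        simp only [Matrix.smul_apply, smul_eq_mul]
        ring
      rw [h6]
      have h8 : ‖∑ c, (fderiv ℂ g x (Pi.single a 1) c - (Pi.single a 1 : Cn b) c) *
          GHf Hf c (g x) p q‖ ≤ b * (C₁ * s * M) := by
        calc _ ≤ ∑ c, ‖(fderiv ℂ g x (Pi.single a 1) c - (Pi.single a 1 : Cn b) c) *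
              GHf Hf c (g x) p q‖ := norm_sum_le _ _
          _ ≤ ∑ _c : Fin b, C₁ * s * M := by
              refine Finset.sum_le_sum fun c _ => ?_
              rw [norm_mul]
              exact mul_le_mul (hfd x hx a c) ((hGe (g x) c p q).trans (hM _ hgx))
                (norm_nonneg _) (by positivity)
          _ = b * (C₁ * s * M) := by
              rw [Finset.sum_const, Finset.card_univ, Fintype.card_fin, nsmul_eq_mul]
      have h9 : ‖GHf Hf a (g x) p q - GHf Hf a x p q‖ ≤ L * s :=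
        ((hGe2 (g x) x a p q).trans (hLip x hxc (g x) hgx)).trans
          (mul_le_mul_of_nonneg_left (hnear x hx2) hL0)
      calc _ ≤ _ := norm_add_le _ _
        _ ≤ b * (C₁ * s * M) + L * s := add_le_add h8 h9
        _ = C₂ * s := by rw [hC₂d]; ring
    have e1 := mul_entry_le hM0 hXe hDt j i
    have e2 := mul_entry_le (norm_nonneg (D x)) hDt hXe j i
    have e3 := mul_entry_le (abs_nonneg C₀) hAt hYX j i
    rw [h4]
    calc _ ≤ ‖(X * B) j i - (B * X) j i‖ + ‖((A x)ᵀ * (Y - X)) j i‖ :=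
          norm_sub_le _ _
      _ ≤ ‖(X * B) j i‖ + ‖(B * X) j i‖ + ‖((A x)ᵀ * (Y - X)) j i‖ :=
          add_le_add (norm_sub_le _ _) le_rfl
      _ ≤ k * (M * ‖D x‖) + k * (‖D x‖ * M) + k * (|C₀| * (C₂ * s)) :=
          add_le_add (add_le_add e1 e2) e3
      _ = _ := by ring
  -- the path
  set v : Cn b := z - z₀ with hv
  have hvn : ‖v‖ < 4 / 3 := by rwa [mem_ball, dist_eq_norm] at hz
  set γ : ℝ → Cn b := fun τ => z₀ + τ • v with hγ
  have hγm : ∀ τ ∈ Icc (0 : ℝ) 1, γ τ ∈ ball z₀ (3 / 2 : ℝ) := by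
    intro τ hτ
    rw [mem_ball, dist_eq_norm]
    have h2 : γ τ - z₀ = τ • v := by rw [hγ]; simp
    rw [h2, norm_smul, Real.norm_eq_abs, abs_of_nonneg hτ.1]
    have := mul_le_of_le_one_left (norm_nonneg v) hτ.2
    linarith
  have hγd : ∀ τ, HasDerivAt γ v τ := by
    intro τ
    have h2 : HasDerivAt (fun τ : ℝ => τ • v) ((1 : ℝ) • v) τ := (hasDerivAt_id τ).smul_const v
    rw [one_smul] at h2
    exact h2.const_add z₀
  set φ : ℝ → (Fin k → Fin k → ℂ) := fun τ => D (γ τ) with hφ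
  set φ' : ℝ → (Fin k → Fin k → ℂ) := fun τ i j => fderiv ℂ (fun y => A y i j) (γ τ) v with hφ'
  have hφd : ∀ τ ∈ Icc (0 : ℝ) 1, HasDerivAt φ (φ' τ) τ := by
    intro τ hτ
    refine hasDerivAt_pi.2 fun i => hasDerivAt_pi.2 fun j => ?_
    have h2 : HasDerivAt (fun τ => A (γ τ) i j) (fderiv ℂ (fun y => A y i j) (γ τ) v) τ :=
      (((hAd i j (γ τ) (hγm τ hτ)).hasFDerivAt.restrictScalars ℝ).comp_hasDerivAt τ (hγd τ))
    exact h2.sub_const _
  have hbound : ∀ τ ∈ Ico (0 : ℝ) 1, ‖φ' τ‖ ≤ C₃ * ‖φ τ‖ + C₃ * s := by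
    intro τ hτ
    have hτ' : τ ∈ Icc (0 : ℝ) 1 := ⟨hτ.1, hτ.2.le⟩
    have hx := hγm τ hτ'
    have hnn : 0 ≤ C₃ * ‖φ τ‖ + C₃ * s := by positivity
    refine (pi_norm_le_iff_of_nonneg hnn).2 fun i => (pi_norm_le_iff_of_nonneg hnn).2 fun j => ?_
    show ‖fderiv ℂ (fun y => A y i j) (γ τ) v‖ ≤ _
    rw [fderiv_sum]
    have h3 : ∀ a, ‖v a * fderiv ℂ (fun y => A y i j) (γ τ) (Pi.single a 1)‖ ≤
        4 / 3 * ((1 / 2) * (2 * k * M * ‖D (γ τ)‖ + k * |C₀| * (C₂ * s))) := by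
      intro a
      rw [norm_mul]
      refine mul_le_mul ((norm_le_pi_norm v a).trans hvn.le) ?_ (norm_nonneg _) (by norm_num)
      have h4 := hcd (γ τ) hx a i j
      rw [cd_holo (hAd i j (γ τ) hx) a, norm_mul] at h4
      have h5 : ‖(2 : ℂ)‖ = 2 := by norm_num
      rw [h5] at h4
      linarith
    calc ‖∑ a, v a * fderiv ℂ (fun y => A y i j) (γ τ) (Pi.single a 1)‖
        ≤ ∑ a, ‖v a * fderiv ℂ (fun y => A y i j) (γ τ) (Pi.single a 1)‖ := norm_sum_le _ _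
      _ ≤ ∑ _a : Fin b, 4 / 3 * ((1 / 2) * (2 * k * M * ‖D (γ τ)‖ + k * |C₀| * (C₂ * s))) :=
          Finset.sum_le_sum fun a _ => h3 a
      _ = b * (4 / 3 * ((1 / 2) * (2 * k * M * ‖D (γ τ)‖ + k * |C₀| * (C₂ * s)))) := by
          rw [Finset.sum_const, Finset.card_univ, Fintype.card_fin, nsmul_eq_mul]
      _ = b * (2 / 3) * (2 * k * M) * ‖φ τ‖ + b * (2 / 3) * (k * |C₀| * C₂) * s := by
          rw [hφ]; ring
      _ ≤ C₃ * ‖φ τ‖ + C₃ * s := by
          have q1 : 0 ≤ (b : ℝ) * (2 / 3) * (2 * k * M) := by positivity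
          have q2 : 0 ≤ (b : ℝ) * (2 / 3) * (k * |C₀| * C₂) := by positivity
          refine add_le_add (mul_le_mul_of_nonneg_right ?_ (norm_nonneg _))
            (mul_le_mul_of_nonneg_right ?_ hs0)
          · rw [hC₃d]; nlinarith
          · rw [hC₃d]; nlinarith
  have h0 : ‖φ 0‖ ≤ ε := by
    refine (pi_norm_le_iff_of_nonneg hε).2 fun i => (pi_norm_le_iff_of_nonneg hε).2 fun j => ?_
    have h2 : γ 0 = z₀ := by rw [hγ]; simp
    show ‖(A (γ 0) - 1) i j‖ ≤ ε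
    rw [h2]
    exact hMB.entry i j
  have hgr := norm_le_gronwallBound_of_norm_deriv_right_le (f := φ) (f' := φ') (δ := ε) (K := C₃)
    (ε := C₃ * s) (a := 0) (b := 1)
    (fun τ hτ => (hφd τ hτ).continuousAt.continuousWithinAt)
    (fun τ hτ => (hφd τ ⟨hτ.1, hτ.2.le⟩).hasDerivWithinAt) h0 hbound 1 ⟨zero_le_one, le_rfl⟩
  have hC₃0 : C₃ ≠ 0 := by positivity
  rw [gronwallBound_of_K_ne_0 hC₃0, sub_zero] at hgr
  simp only [mul_one] at hgr
  rw [mul_div_cancel_left₀ _ hC₃0] at hgr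
  have hfin : ‖φ 1‖ ≤ Real.exp C₃ * (ε + s) := by
    nlinarith [Real.exp_pos C₃]
  have h1z : γ 1 = z := by rw [hγ, hv]; simp
  have hDz : ‖D z‖ ≤ Real.exp C₃ * (ε + s) := by
    have : φ 1 = D z := by rw [hφ]; simp only [h1z]
    rwa [this] at hfin
  have := MB.of_entry (A := A z - 1) (C := Real.exp C₃ * (ε + s)) fun i j => (hDe z i j).trans hDz
  rw [← mul_assoc] at this
  exact this

end Pool.Agent.Helper25.RK
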