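import Pool.Agent.Helper36.RK.GoalsG

/-! # Packet RK-POLG: the polarization, general case -/

set_option autoImplicit false

open Complex Metric Set Filter Topology MeasureTheory Matrix
open scoped ContDiff ComplexConjugate ComplexOrder Manifold

namespace Pool.Agent.Helper25.RK

open Pool.Agent.Helper95.Lin Pool.Agent.Helper16.Abund Pool.Agent.Helper92.Orb Pool.Agent.Helper10.SP
  Pool.Agent.Helper95.RK Pool.Agent.Helper36.RK

/-- Packet POLG. -/
theorem polg (hELIM : S_ELIM) (hKLIM : S_KLIM) (hOMA : S_OMA) : S_POLG := by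
  intro b k N c R P Φ Hf C H hA hK lam hP hL'
  obtain ⟨χ, nn, E, hχ, hχ0, hχ1, -, hlim, htr⟩ := hELIM c R P Φ Hf C H hA hK lam hP hL'
  have key : ∀ i, ∀ z ∈ ball (c i) 2, (E i).det ≠ 0 ∧ PolM (Lm lam z) (E i)⁻¹ := by
    intro i z hz
    have hz2 : z ∈ Bd c 2 := mem_iUnion.2 ⟨i, hz⟩
    have hz3 : z ∈ Bd c 3 := mem_iUnion.2 ⟨i, ball_subset_ball (by norm_num) hz⟩
    obtain ⟨K, hKp, hKE⟩ := hKLIM c R P Φ Hf C H hA hK lam hP χ nn hχ hχ0 hχ1 z hz2 (E i)
      (hlim i z hz)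
    obtain ⟨B, hB, hb⟩ := hP.bdd
    have h1 := hOMA (Lm lam z) K (E i) hKp (fun x hx => by
      have h2 := (hb z hz3 x).2
      have h3 : ∑ j, (x j : ℂ) • lam j z = 0 := by
        funext p
        have h4 := congrFun hx p
        simp only [Matrix.mulVec, dotProduct, Lm, Matrix.of_apply, Pi.zero_apply] at h4
        simp only [Finset.sum_apply, Pi.smul_apply, smul_eq_mul, Pi.zero_apply]
        rw [← h4]
        exact Finset.sum_congr rfl fun j _ => mul_comm _ _
      rw [h3, norm_zero, mul_zero] at h2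
      exact norm_le_zero_iff.1 h2) (fun j j' => hKE j j')
    exact ⟨h1.1, h1.2.1⟩
  have hc : ∀ i, c i ∈ ball (c i) 2 := fun i => mem_ball_self (by norm_num)
  refine ⟨fun i => (E i)⁻¹, ⟨fun i => (key i (c i) (hc i)).2.alt,
    fun i z hz => (key i z hz).2.iso, fun i z hz => (key i z hz).2.pos, ?_⟩⟩
  intro U t hPt z hzU i j hzi hgz Q hQ
  have hEE : E i = Qᵀ * E j * Q := htr U t hPt z hzU i j hzi hgz Q hQ.self_of_nhds
  have hdet : (E i).det ≠ 0 := (key i z hzi).1
  have hQd : Q.det ≠ 0 := by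
    intro h0
    apply hdet
    rw [hEE, Matrix.det_mul, h0, mul_zero]
  have hu : IsUnit Q.det := isUnit_iff_ne_zero.2 hQd
  have hut : IsUnit Qᵀ.det := by rwa [Matrix.det_transpose]
  show Q * (E i)⁻¹ * Qᵀ = (E j)⁻¹
  rw [hEE, Matrix.mul_inv_rev, Matrix.mul_inv_rev, ← Matrix.mul_assoc Q,
    Matrix.mul_nonsing_inv _ hu, Matrix.one_mul, Matrix.mul_assoc, Matrix.nonsing_inv_mul _ hut,
    Matrix.mul_one]

end Pool.Agent.Helper25.RK
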