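import Pool.Agent.Helper36.RK.GoalsQ

/-! # Packet RK-POLQ: the polarization -/

set_option autoImplicit false

open Complex Metric Set Filter Topology MeasureTheory Matrix
open scoped ContDiff ComplexConjugate ComplexOrder Manifold

namespace Pool.Agent.Helper25.RK

open Pool.Agent.Helper95.Lin Pool.Agent.Helper16.Abund Pool.Agent.Helper92.Orb Pool.Agent.Helper10.SP
  Pool.Agent.Helper95.RK Pool.Agent.Helper36.RK

lemma hermi_sum_left {k : ℕ} {ι : Type*} [Fintype ι] (A : Matrix (Fin k) (Fin k) ℂ) (a : ι → ℂ)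
    (x : ι → Fin k → ℂ) (v : Fin k → ℂ) :
    hermi A (∑ l, a l • x l) v = ∑ l, a l * hermi A (x l) v := by
  unfold hermi
  simp only [Finset.sum_apply, Pi.smul_apply, smul_eq_mul, Finset.mul_sum, Finset.sum_mul]
  calc ∑ i, ∑ j, ∑ l, A i j * (a l * x l i) * conj (v j)
      = ∑ i, ∑ l, ∑ j, A i j * (a l * x l i) * conj (v j) :=
        Finset.sum_congr rfl fun i _ => Finset.sum_comm
    _ = ∑ l, ∑ i, ∑ j, A i j * (a l * x l i) * conj (v j) := Finset.sum_comm
    _ = _ := Finset.sum_congr rfl fun l _ => Finset.sum_congr rfl fun i _ =>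
        Finset.sum_congr rfl fun j _ => by ring

lemma hermi_sum_right {k : ℕ} {ι : Type*} [Fintype ι] (A : Matrix (Fin k) (Fin k) ℂ) (a : ι → ℝ)
    (x : ι → Fin k → ℂ) (u : Fin k → ℂ) :
    hermi A u (∑ l, (a l : ℂ) • x l) = ∑ l, (a l : ℂ) * hermi A u (x l) := by
  unfold hermi
  simp only [Finset.sum_apply, Pi.smul_apply, smul_eq_mul, Finset.mul_sum, map_sum, map_mul,
    Complex.conj_ofReal]
  calc ∑ i, ∑ j, ∑ l, A i j * u i * ((a l : ℂ) * conj (x l j))
      = ∑ i, ∑ l, ∑ j, A i j * u i * ((a l : ℂ) * conj (x l j)) :=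
        Finset.sum_congr rfl fun i _ => Finset.sum_comm
    _ = ∑ l, ∑ i, ∑ j, A i j * u i * ((a l : ℂ) * conj (x l j)) := Finset.sum_comm
    _ = _ := Finset.sum_congr rfl fun l _ => Finset.sum_congr rfl fun i _ =>
        Finset.sum_congr rfl fun j _ => by ring

lemma hL_eq {b k : ℕ} (Hf : Cn b → Matrix (Fin k) (Fin k) ℂ) (lam : Fin (2 * k) → Cn b → Cn k)
    (z : Cn b) (j j' : Fin (2 * k)) : hL Hf lam z j j' = hermi (Hf z) (lam j z) (lam j' z) := rfl

/-- Packet POLQ. -/
theorem polq (hEKQ : S_EKQ) (hOMA : S_OMA) : S_POLQ := by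
  intro b k N c R P Φ Hf C H hA hK hF lam hP hL'
  have hE := hEKQ c R P Φ Hf C H hA hK hF lam hP hL'
  set E : Fin N → Matrix (Fin (2 * k)) (Fin (2 * k)) ℝ :=
    fun i => Matrix.of fun j j' => (hL Hf lam (c i) j j').im with hEd
  have hR : 3 ≤ R := by
    have h1 := hA.Rge
    have h2 := hA.Cge
    linarith
  have key : ∀ i, ∀ z ∈ ball (c i) 2, (E i).det ≠ 0 ∧ PolM (Lm lam z) (E i)⁻¹ := by
    intro i z hz
    have hz3 : z ∈ Bd c 3 := mem_iUnion.2 ⟨i, ball_subset_ball (by norm_num) hz⟩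
    have hzR : z ∈ Bd c R := mem_iUnion.2 ⟨i, ball_subset_ball (by linarith) hz⟩
    obtain ⟨B, hB, hb⟩ := hP.bdd
    have h1 := hOMA (Lm lam z) (Hf z) (E i) (hA.posH z hzR) (fun x hx => by
      have h2 := (hb z hz3 x).2
      have h3 : ∑ j, (x j : ℂ) • lam j z = 0 := by
        funext p
        have h4 := congrFun hx p
        simp only [Matrix.mulVec, dotProduct, Lm, Matrix.of_apply, Pi.zero_apply] at h4
        simp only [Finset.sum_apply, Pi.smul_apply, smul_eq_mul, Pi.zero_apply]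
        rw [← h4]
        exact Finset.sum_congr rfl fun j _ => mul_comm _ _
      rw [h3, norm_zero, mul_zero] at h2
      exact norm_le_zero_iff.1 h2) (fun j j' => by
      rw [hEd]
      exact (hE i z hz j j').symm)
    exact ⟨h1.1, h1.2.1⟩
  have hc : ∀ i, c i ∈ ball (c i) 2 := fun i => mem_ball_self (by norm_num)
  refine ⟨fun i => (E i)⁻¹, ⟨fun i => (key i (c i) (hc i)).2.alt,
    fun i z hz => (key i z hz).2.iso, fun i z hz => (key i z hz).2.pos, ?_⟩⟩
  intro U t hPt z hzU i j hzi hgz Q hQ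
  have hQz := hQ.self_of_nhds
  have hEE : E i = Qᵀ * E j * Q := by
    ext m m'
    have h1 : E i m m' = (hL Hf lam z m m').im := (hE i z hzi m m').symm
    have h2 : ∀ l l', E j l l' = (hL Hf lam (t.g z) l l').im := fun l l' =>
      (hE j (t.g z) hgz l l').symm
    rw [h1, hL_eq, ← hA.herm U t hPt z hzU, hQz m, hQz m', hermi_sum_left]
    simp only [hermi_sum_right]
    rw [Matrix.mul_apply, Complex.im_sum]
    simp only [Matrix.mul_apply, Matrix.transpose_apply, Finset.sum_mul]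
    rw [Finset.sum_comm]
    refine Finset.sum_congr rfl fun l _ => ?_
    rw [Complex.im_ofReal_mul, Complex.im_sum, Finset.mul_sum]
    refine Finset.sum_congr rfl fun l' _ => ?_
    rw [Complex.im_ofReal_mul, h2, hL_eq]
    ring
  have hdet : (E i).det ≠ 0 := (key i z hzi).1
  have hQd : Q.det ≠ 0 := by
    intro h0
    apply hdet
    rw [hEE, Matrix.det_mul, h0, mul_zero]
  have hu : IsUnit Q.det := isUnit_iff_ne_zero.2 hQd
  have hut : IsUnit Qᵀ.det := by rwa [Matrix.det_transpose]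
  show Q * (E i)⁻¹ * Qᵀ = (E j)⁻¹
  rw [hEE, Matrix.mul_inv_rev, Matrix.mul_inv_rev, ← Matrix.mul_assoc Q,
    Matrix.mul_nonsing_inv _ hu, Matrix.one_mul, Matrix.mul_assoc, Matrix.nonsing_inv_mul _ hut,
    Matrix.mul_one]

end Pool.Agent.Helper25.RK
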